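import Pool.Agent.H55.PR.AnQ

/-!
# The order at the centre of the product of the `L`-functions of a form and of a twist
-/

set_option autoImplicit false

open UpperHalfPlane MatrixGroups CongruenceSubgroup Filter Topology

namespace Pool.Agent.H55.OR

open Pool.Agent.W97.TW
open Pool.Agent.H55.PR

/-- the `L`-function of a newform of level `2 ^ r` -/
theorem self_L {r : ℕ} {k : ℤ} (hk : 0 < k)
    {f : CuspForm (Gamma0 (2 ^ r) : Subgroup (GL (Fin 2) ℝ)) k} (hf : IsNewform (2 ^ r) k f)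
    {W : ℂ} (hW : ∀ z : ℍ, f (ofComplex (-1 / (((2 ^ r : ℕ) : ℂ) * z))) = W * (z : ℂ) ^ k * f z) :
    ∃ L : ℂ → ℂ, Differentiable ℂ L ∧
      (∀ s : ℂ, 3 / 2 < s.re → HasProd (fun p : Nat.Primes =>
        (EF (2 ^ r) k f p 1 s)⁻¹) (L s)) ∧
      ∃ n : ℕ, analyticOrderAt L (1 / 2) = n ∧
        W * Complex.I ^ k * (((((2 ^ r : ℕ) : ℝ) ^ (-(k : ℝ) / 2) : ℝ)) : ℂ) = (-1) ^ n := by
  have h1 : ∀ a : ZMod 1, (1 : DirichletCharacter ℂ 1) a = 1 := by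
    intro a
    have : IsUnit a := isUnit_of_subsingleton a
    rw [MulChar.one_apply this]
  obtain ⟨L, g1, g2, n, g3, g4⟩ := exists_L hf (by positivity) hk hW one_pos (Nat.coprime_one_right _)
    (1 : DirichletCharacter ℂ 1) DirichletCharacter.isPrimitive_one_level_one (one_pow 2)
  refine ⟨L, g1, fun s hs => ?_, n, g3, ?_⟩
  · have h5 := g2 s hs
    refine h5.congr_fun fun p => ?_
    rw [h1]
  · rw [← g4, h1]
    ring

/-- **Odd order at the centre.** -/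
theorem oddL {d : ℕ} (hd : InClass d) {r : ℕ} {k : ℤ} (hk : 0 < k)
    {f f' : CuspForm (Gamma0 (2 ^ r) : Subgroup (GL (Fin 2) ℝ)) k} (hf : IsNewform (2 ^ r) k f)
    (hf' : IsNewform (2 ^ r) k f') (hW : ∃ W : ℂ,
      (∀ z : ℍ, f (ofComplex (-1 / (((2 ^ r : ℕ) : ℂ) * z))) = W * (z : ℂ) ^ k * f z) ∧
      ∀ z : ℍ, f' (ofComplex (-1 / (((2 ^ r : ℕ) : ℂ) * z))) = W * (z : ℂ) ^ k * f' z) :
    ∃ L : ℂ → ℂ, Differentiable ℂ L ∧
      (∀ s : ℂ, 3 / 2 < s.re → HasProd (fun p : Nat.Primes =>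
        (EF (2 ^ r) k f p 1 s * EF (2 ^ r) k f' p (jacobiSym (p : ℕ) d : ℂ) s)⁻¹) (L s)) ∧
      ∃ m : ℕ, Odd m ∧ analyticOrderAt L (1 / 2) = m := by
  obtain ⟨W, hW1, hW2⟩ := hW
  obtain ⟨L, h1, h2, n, h3, h4⟩ := self_L hk hf hW1
  obtain ⟨L', h1', h2', n', h3', h4'⟩ := twist_L hd hk hf' hW2
  refine ⟨L * L', h1.mul h1', fun s hs => ?_, n + n', ?_, ?_⟩
  · have h5 := (h2 s hs).mul (h2' s hs)
    refine h5.congr_fun fun p => ?_
    rw [mul_inv]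
  · have h5 : (-1 : ℂ) ^ (n + n') = -1 := by
      rw [pow_add, ← h4', h4, mul_neg, ← pow_add, Even.neg_one_pow ⟨n, rfl⟩]
    by_contra h
    rw [Nat.not_odd_iff_even] at h
    rw [h.neg_one_pow] at h5
    norm_num at h5
  · rw [analyticOrderAt_mul (h1.analyticAt _) (h1'.analyticAt _), h3, h3']
    push_cast
    rfl

end Pool.Agent.H55.OR
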