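import Pool.Agent.H55.OR.Semi

/-!
# The decomposition of the Selmer group over a quadratic field which is ramified at `2`
-/

set_option autoImplicit false
set_option linter.unusedSectionVars false

namespace Pool.Agent.H55.OR

open Matrix IsLocalRing Topology
open Pool.Agent.H55.PR
open Pool.Agent.H55.PR.PE

variable {A : Type} [CommRing A] [IsDomain A] [TopologicalSpace A] [IsTopologicalRing A]
  {E : Type} [Field E] [Algebra A E] [IsFractionRing A E] {n : ℕ}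
  {ρ : GQ →* GL (Fin n) A}

variable (ρ) in
/-- the Selmer cocycles over `ℚ(t)`; `L` and `L'` are spaces of functions on `D` -/
def selR (t : QBar) (D : Subgroup GQ) (L L' : Submodule E (D → Fin n → E)) :
    Submodule E (GF t → Fin n → E) where
  carrier := {z | (∀ σ τ : GF t, z (σ * τ) = z σ + mat E ρ σ *ᵥ z τ) ∧ Cont (A := A) E z ∧
    (∀ (p : ℕ) [Fact p.Prime] (ι' : Emb p), p ≠ 2 →
      ∃ v : Fin n → E, ∀ σ : GF t, (σ : GQ) ∈ Inr ι' → z σ = mat E ρ σ *ᵥ v - v) ∧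
    (∃ y ∈ L, ∃ w ∈ L', ∀ (δ : D) (h : GF t), (h : GQ) = δ → z h = y δ + w δ)}
  add_mem' := by
    rintro a b ⟨h1, h2, h3, y, hy, w, hw, h4⟩ ⟨h1', h2', h3', y', hy', w', hw', h4'⟩
    refine ⟨fun σ τ => ?_, h2.add h2', fun p _ ι' hp => ?_, y + y', L.add_mem hy hy', w + w',
      L'.add_mem hw hw', fun δ h hh => ?_⟩
    · simp only [Pi.add_apply, h1 σ τ, h1' σ τ, mulVec_add]
      abel
    · obtain ⟨v, hv⟩ := h3 p ι' hp
      obtain ⟨w, hw⟩ := h3' p ι' hp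
      refine ⟨v + w, fun σ hσ => ?_⟩
      simp only [Pi.add_apply, hv σ hσ, hw σ hσ, mulVec_add]
      abel
    · simp only [Pi.add_apply, h4 δ h hh, h4' δ h hh]
      abel
  zero_mem' := by
    refine ⟨fun σ τ => by simp, Cont.zero, fun p _ ι' hp => ⟨0, fun σ _ => by simp⟩,
      0, L.zero_mem, 0, L'.zero_mem, fun δ h _ => by simp⟩
  smul_mem' := by
    rintro x a ⟨h1, h2, h3, y, hy, w, hw, h4⟩
    refine ⟨fun σ τ => ?_, h2.smul x, fun p _ ι' hp => ?_, x • y, L.smul_mem x hy, x • w,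
      L'.smul_mem x hw, fun δ h hh => ?_⟩
    · simp only [Pi.smul_apply, h1 σ τ, mulVec_smul, smul_add]
    · obtain ⟨v, hv⟩ := h3 p ι' hp
      refine ⟨x • v, fun σ hσ => ?_⟩
      simp only [Pi.smul_apply, hv σ hσ, mulVec_smul, smul_sub]
    · simp only [Pi.smul_apply, h4 δ h hh, smul_add]

/-- the unramified condition under corestriction -/
lemma unr_cor (h2' : (2 : E) ≠ 0) {s : QBar} (hs : Sq s) {H : Subgroup GQ} (hi : H.index = 2)
    {c : GQ} (hc : c ∉ H) {z : H → Fin n → E} (hC : z ∈ Coc (Mh E ρ hs) H)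
    (h3 : ∀ (p : ℕ) [Fact p.Prime] (ι' : Emb p), p ≠ 2 →
      ∃ v : Fin n → E, ∀ σ : H, (σ : GQ) ∈ Inr ι' → z σ = tw E ρ s σ *ᵥ v - v)
    (p : ℕ) [Fact p.Prime] (ι' : Emb p) (hp : p ≠ 2) :
    ∃ v : Fin n → E, ∀ σ ∈ Inr ι', cor (Mh E ρ hs) H c z σ = tw E ρ s σ *ᵥ v - v := by
  have hM := Mh_apply E ρ hs
  have hcoc := cor_coc hi hc hC
  obtain ⟨v, hv⟩ := h3 p ι' hp
  obtain ⟨w, hw⟩ := h3 p (ι'.comp ((c⁻¹ : GQ) : QBar →ₐ[ℚ] QBar)) hp
  refine cob_of_half (v := v + Mh E ρ hs c⁻¹ *ᵥ w) h2' hi (fun σ h τ h' => inr_mul h h') hcoc ?_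
  intro σ hσ hσH
  have h5 : c * σ * c⁻¹ ∈ Inr (ι'.comp ((c⁻¹ : GQ) : QBar →ₐ[ℚ] QBar)) := by
    have := inr_conj' (g := c⁻¹) hσ
    rwa [inv_inv] at this
  rw [cor_mem hi hc z hσH, hv ⟨σ, hσH⟩ hσ, hw ⟨c * σ * c⁻¹, conj hi hc hσH⟩ h5, ← hM, ← hM]
  simp only [mulVec_add, mulVec_sub, mulVec_mulVec, ← map_mul]
  have e1 : c⁻¹ * (c * σ * c⁻¹) = σ * c⁻¹ := by group
  rw [e1]
  abel

section local_part

variable {t : QBar} {D : Subgroup GQ} {c : GQ}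

/-- the subgroup of the local group has index two -/
lemma index_loc (ht : Sq t) (hc : c ∉ GF t) (hcD : c ∈ D) : ((GF t).subgroupOf D).index = 2 := by
  rw [Subgroup.index_eq_two_iff]
  refine ⟨⟨c, hcD⟩, fun b => ?_⟩
  rw [Subgroup.mem_subgroupOf, Subgroup.mem_subgroupOf, Subgroup.coe_mul]
  rw [xor_iff_iff_not, mem_GF_sgn, mem_GF_sgn, ht.sgn_mul]
  have h1 : sgn t ((⟨c, hcD⟩ : D) : GQ) = -1 := sgn_not hc
  rw [h1]
  rcases Sq.sgn_or t b with h | h <;> rw [h] <;> norm_num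

/-- the restriction of the corestriction to the local group -/
lemma cor_loc (M : GQ →* Matrix (Fin n) (Fin n) E) (hcD : c ∈ D) (z : GF t → Fin n → E) :
    (fun δ : D => cor M (GF t) c z δ) = cor (M.comp D.subtype) ((GF t).subgroupOf D) ⟨c, hcD⟩
      (fun x => z ⟨(x : D), x.2⟩) := by
  funext δ
  rw [cor_apply, cor_apply]
  have key : ∀ δ : D, PR.ext (GF t) c z δ = PR.ext ((GF t).subgroupOf D) ⟨c, hcD⟩
      (fun x => z ⟨(x : D), x.2⟩) δ := by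
    intro δ
    unfold PR.ext
    by_cases h : (δ : GQ) ∈ GF t
    · have h' : δ ∈ (GF t).subgroupOf D := h
      rw [dif_pos h, dif_pos h']
    · have h' : δ ∉ (GF t).subgroupOf D := h
      rw [dif_neg h, dif_neg h']
      by_cases g : (δ : GQ) * c⁻¹ ∈ GF t
      · have g' : δ * (⟨c, hcD⟩ : D)⁻¹ ∈ (GF t).subgroupOf D := g
        rw [dif_pos g, dif_pos g']
        rfl
      · have g' : δ * (⟨c, hcD⟩ : D)⁻¹ ∉ (GF t).subgroupOf D := g
        rw [dif_neg g, dif_neg g']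
  have e1 := key δ
  have e2 := key (⟨c, hcD⟩ * δ)
  have e3 : c * (δ : GQ) = ((⟨c, hcD⟩ * δ : D) : GQ) := rfl
  rw [e1, e3, e2]
  rfl

end local_part

section main

variable {t : QBar} {D : Subgroup GQ} {L L' : Submodule E (D → Fin n → E)}

/-- corestriction of a local sum -/
lemma cor_in (ht : Sq t) {c : GQ} (hc : c ∉ GF t) (hcD : c ∈ D)
    {M M' : GQ →* Matrix (Fin n) (Fin n) E} (hM : ∀ σ ∈ GF t, M' σ = M σ)
    (hM' : ∀ σ ∉ GF t, M' σ = -M σ) {L : Submodule E (D → Fin n → E)}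
    (hLb : ∀ v : Fin n → E, (fun δ : D => M δ *ᵥ v - v) ∈ L)
    {y w : D → Fin n → E} (hy : y ∈ L) (hyc : ∀ δ δ' : D, y (δ * δ') = y δ + M δ *ᵥ y δ')
    (hwc : ∀ δ δ' : D, w (δ * δ') = w δ + M' δ *ᵥ w δ') {z : GF t → Fin n → E}
    (hz : ∀ (δ : D) (h : GF t), (h : GQ) = δ → z h = y δ + w δ) :
    (fun δ : D => cor M (GF t) c z δ) ∈ L := by
  have hi := index_loc ht hc hcD
  have hc' : (⟨c, hcD⟩ : D) ∉ (GF t).subgroupOf D := hc
  rw [cor_loc M hcD z]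
  have e1 : (fun x : (GF t).subgroupOf D => z ⟨(x : D), x.2⟩) =
      res ((GF t).subgroupOf D) y + res ((GF t).subgroupOf D) w := by
    funext x
    rw [hz x ⟨(x : D), x.2⟩ rfl]
    rfl
  rw [e1, map_add]
  have hyC : y ∈ CocG (M.comp D.subtype) := hyc
  have hwC : w ∈ CocG (M'.comp D.subtype) := hwc
  have h1 := cor_res hi hc' hyC
  have h2 := cor_res' (M := M'.comp D.subtype) (M' := M.comp D.subtype) hi hc'
    (fun σ hσ => (hM σ hσ).symm) (fun σ hσ => by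
      show M σ = -M' σ
      rw [hM' σ hσ, neg_neg]) hwC
  obtain ⟨v, hv⟩ := h1
  obtain ⟨v', hv'⟩ := h2
  have e2 : cor (M.comp D.subtype) ((GF t).subgroupOf D) ⟨c, hcD⟩ (res ((GF t).subgroupOf D) y) +
      cor (M.comp D.subtype) ((GF t).subgroupOf D) ⟨c, hcD⟩ (res ((GF t).subgroupOf D) w) =
      (2 : E) • y + (fun δ : D => M δ *ᵥ v - v) + (fun δ : D => M δ *ᵥ v' - v') := by
    funext δ
    have e3 := hv δ
    have e4 := hv' δ
    rw [Pi.sub_apply] at e3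
    simp only [Pi.add_apply]
    rw [e4, sub_eq_iff_eq_add.1 e3]
    show M δ *ᵥ v - v + ((2 : E) • y) δ + (M δ *ᵥ v' - v') = _
    abel
  rw [e2]
  exact L.add_mem (L.add_mem (L.smul_mem _ hy) (hLb v)) (hLb v')

/-- **The decomposition.** -/
theorem decompR (h2 : (2 : E) ≠ 0) (hρ : ∀ i j, Continuous fun σ =>
    (ρ σ : Matrix (Fin n) (Fin n) A) i j) (ht : Sq t) {c : GQ} (hc : c ∉ GF t) (hcD : c ∈ D)
    (hL : ∀ v : Fin n → E, (fun δ : D => mat E ρ δ *ᵥ v - v) ∈ L)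
    (hL' : ∀ v : Fin n → E, (fun δ : D => tw E ρ t δ *ᵥ v - v) ∈ L')
    (hLc : ∀ y ∈ L, ∀ δ δ' : D, y (δ * δ') = y δ + mat E ρ δ *ᵥ y δ')
    (hLc' : ∀ y ∈ L', ∀ δ δ' : D, y (δ * δ') = y δ + tw E ρ t δ *ᵥ y δ') :
    Nonempty (Q (selR ρ t D L L') (Cob (Mh E ρ Sq.one) (GF t)) ≃ₗ[E]
      Q (selG ρ 1 D L) (CobG (Mh E ρ Sq.one)) × Q (selG ρ t D L') (CobG (Mh E ρ ht))) := by
  have hi := index_GF ht hc
  have hM1 : ∀ σ, Mh E ρ Sq.one σ = mat E ρ σ := fun σ => by rw [Mh_apply, tw_one]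
  have a1 : ∀ σ ∈ GF t, Mh E ρ ht σ = Mh E ρ Sq.one σ := by
    intro σ hσ
    rw [Mh_apply, hM1, tw_of E ρ hσ]
  have a2 : ∀ σ ∉ GF t, Mh E ρ ht σ = -Mh E ρ Sq.one σ := by
    intro σ hσ
    rw [Mh_apply, hM1]
    unfold tw
    rw [sgn_not hσ]
    simp
  refine equiv h2 hi hc a1 a2 ?_ ?_ ?_ ?_ ?_ ?_
  · intro a ha
    exact ha.1
  · intro a ha
    exact ha.1
  · rintro a ⟨h1, h3, h4, h5⟩
    refine ⟨fun σ τ => ?_, h3.comp continuous_subtype_val, fun p _ ι' hp => ?_,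
      _, h5, 0, L'.zero_mem, fun δ h hh => ?_⟩
    · have := h1 σ τ
      rw [tw_one] at this
      exact this
    · obtain ⟨v, hv⟩ := h4 p ι' hp
      exact ⟨v, fun σ hσ => by rw [← tw_one]; exact hv σ hσ⟩
    · show a h = a δ + 0
      rw [add_zero, hh]
  · rintro a ⟨h1, h3, h4, h5⟩
    refine ⟨fun σ τ => ?_, h3.comp continuous_subtype_val, fun p _ ι' hp => ?_,
      0, L.zero_mem, _, h5, fun δ h hh => ?_⟩
    · have := h1 σ τ
      rw [tw_of E ρ σ.2] at this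
      exact this
    · obtain ⟨v, hv⟩ := h4 p ι' hp
      exact ⟨v, fun σ hσ => by rw [← tw_of E ρ σ.2]; exact hv σ hσ⟩
    · show a h = 0 + a δ
      rw [zero_add, hh]
  · rintro z ⟨h1, h3, h4, y, hy, w, hw, h5⟩
    have hC : z ∈ Coc (Mh E ρ Sq.one) (GF t) := fun σ τ => by
      rw [hM1]
      exact h1 σ τ
    refine ⟨fun σ τ => ?_, cont_cor hi (isOpen_GF t) hc Sq.one hρ h3, fun p _ ι' hp =>
      unr_cor h2 Sq.one hi hc hC (fun p _ ι' hp => ?_) p ι' hp, ?_⟩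
    · rw [← Mh_apply E ρ Sq.one]
      exact cor_coc hi hc hC σ τ
    · obtain ⟨v, hv⟩ := h4 p ι' hp
      exact ⟨v, fun σ hσ => by rw [tw_one]; exact hv σ hσ⟩
    · refine cor_in ht hc hcD a1 a2 (fun v => ?_) hy (fun δ δ' => ?_) (fun δ δ' => ?_) h5
      · simp only [hM1]
        exact hL v
      · rw [hM1]
        exact hLc y hy δ δ'
      · exact hLc' w hw δ δ'
  · rintro z ⟨h1, h3, h4, y, hy, w, hw, h5⟩
    have hC : z ∈ Coc (Mh E ρ ht) (GF t) := fun σ τ => by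
      rw [Mh_apply, tw_of E ρ σ.2]
      exact h1 σ τ
    refine ⟨fun σ τ => ?_, cont_cor hi (isOpen_GF t) hc ht hρ h3, fun p _ ι' hp =>
      unr_cor h2 ht hi hc hC (fun p _ ι' hp => ?_) p ι' hp, ?_⟩
    · rw [← Mh_apply E ρ ht]
      exact cor_coc hi hc hC σ τ
    · obtain ⟨v, hv⟩ := h4 p ι' hp
      exact ⟨v, fun σ hσ => by rw [tw_of E ρ σ.2]; exact hv σ hσ⟩
    · refine cor_in ht hc hcD (M := Mh E ρ ht) (M' := Mh E ρ Sq.one)
        (fun σ hσ => (a1 σ hσ).symm) (fun σ hσ => by rw [a2 σ hσ, neg_neg]) (fun v => ?_) hw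
        (fun δ δ' => ?_) (fun δ δ' => ?_) (fun δ h hh => by rw [h5 δ h hh, add_comm])
      · simp only [Mh_apply]
        exact hL' v
      · exact hLc' w hw δ δ'
      · rw [hM1]
        exact hLc y hy δ δ'

end main

end Pool.Agent.H55.OR
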