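import Pool.Agent.H55.PR.Defs

/-!
# Self-twists, and Selmer groups over the real quadratic fields in which `2` is ramified: definitions
-/

set_option autoImplicit false

namespace Pool.Agent.H55.OR

open Matrix IsLocalRing
open Pool.Agent.H55.PR

variable {A : Type} [CommRing A] {n : ℕ} (E : Type) [Field E] [Algebra A E]

variable {E} in
/-- The `τ`-semilinear map `v ↦ T τ(v)` of `V = E ^ n`. -/
def sl (τ : E ≃+* E) (T : Matrix (Fin n) (Fin n) E) (v : Fin n → E) : Fin n → E :=
  T *ᵥ fun i => τ (v i)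

/-- The `τ`-semilinear map `v ↦ T τ(v)` is an isomorphism of `V` with `V ⊗ sgn u`. Here `τ` is an
automorphism of the field `E`, the extension of an automorphism `τA` of its ring of integers. -/
structure SelfTwist (ρ : GQ →* GL (Fin n) A) (u : QBar) (τA : A ≃+* A) (τ : E ≃+* E)
    (T : Matrix (Fin n) (Fin n) E) : Prop where
  ext : ∀ a : A, τ (algebraMap A E a) = algebraMap A E (τA a)
  isUnit : IsUnit T
  twist : ∀ (σ : GQ) (v : Fin n → E),
    sl τ T (mat E ρ σ *ᵥ v) = (sgn u σ : E) • (mat E ρ σ *ᵥ sl τ T v)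

/-- **The Selmer group** of `V` over the field `ℚ(t)`, `t = s u`, in which `2` is ramified, for the local
condition `L_w = res L + T τ(res L)` at the place `w` above `2`: `z` is a continuous cocycle of the
Galois group of `ℚ(t)`, its class is unramified outside `2`, and its restriction to the decomposition
group at `w` is `y + T τ(y')`, where the classes of `y`, `y'` are in the space `L` spanned by the
classes of the `l i`. -/
structure InSelmerRam [TopologicalSpace A] (ρ : GQ →* GL (Fin n) A) (t : QBar) (τ : E ≃+* E)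
    (T : Matrix (Fin n) (Fin n) E) (ι : Emb 2) {k : ℕ} (l : Fin k → Dec ι → Fin n → E)
    (z : GF t → Fin n → E) : Prop where
  mul : ∀ σ σ' : GF t, z (σ * σ') = z σ + mat E ρ σ *ᵥ z σ'
  cont : Cont (A := A) E z
  unramified : ∀ (p : ℕ) [Fact p.Prime] (ι' : Emb p), p ≠ 2 →
    ∃ v : Fin n → E, ∀ σ : GF t, (σ : GQ) ∈ Inr ι' → z σ = mat E ρ σ *ᵥ v - v
  two : ∃ y y' : Dec ι → Fin n → E, InSpan E (fun δ : Dec ι => mat E ρ δ) l y ∧
    InSpan E (fun δ : Dec ι => mat E ρ δ) l y' ∧
    ∀ (δ : Dec ι) (h : GF t), (h : GQ) = δ → z h = y δ + sl τ T (y' δ)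

end Pool.Agent.H55.OR
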