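import Pool.Agent.H55.PR.Main

/-!
# The decomposition group at `2` moves `√-1` and `√-2`
-/

set_option autoImplicit false

namespace Pool.Agent.H55.OR

open Pool.Agent.H55.PR

lemma no_sq_one (q : ℚ_[2]) : q ^ 2 ≠ -1 := by
  intro h
  have h1 : ‖q‖ = 1 := by
    have h2 : ‖q‖ ^ 2 = 1 := by rw [← norm_pow, h, norm_neg, norm_one]
    nlinarith [norm_nonneg q, sq_nonneg (‖q‖ - 1)]
  let z : ℤ_[2] := ⟨q, h1.le⟩
  have h3 : z ^ 2 = -1 := by
    apply PadicInt.ext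
    push_cast
    exact h
  have h4 := congrArg (PadicInt.toZModPow 2 : ℤ_[2] → ZMod (2 ^ 2)) h3
  rw [map_pow, map_neg, map_one] at h4
  revert h4
  generalize PadicInt.toZModPow 2 z = a
  revert a
  decide

lemma no_sq_two (q : ℚ_[2]) : q ^ 2 ≠ -2 := by
  intro h
  have hq : q ≠ 0 := by
    rintro rfl
    norm_num at h
  have h1 : ‖q‖ ^ 2 = ((2 : ℕ) : ℝ)⁻¹ := by
    rw [← norm_pow, h, norm_neg]
    exact Padic.norm_p (p := 2)
  rw [Padic.norm_eq_zpow_neg_valuation hq] at h1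
  have h2 : ((2 : ℕ) : ℝ) ^ (-q.valuation * 2) = ((2 : ℕ) : ℝ) ^ (-1 : ℤ) := by
    rw [zpow_mul, zpow_neg_one, ← h1]
    norm_cast
  have h3 := zpow_right_injective₀ (a := ((2 : ℕ) : ℝ)) (by norm_num) (by norm_num) h2
  omega

/-- the decomposition group moves `√-m` for `m = 1, 2` -/
theorem exists_dec_move {u : QBar} {m : ℕ} (hm : m = 1 ∨ m = 2) (hu : u ^ 2 = -(m : QBar))
    (ι : Emb 2) : ∃ c ∈ Dec ι, c ∉ GF u := by
  have key : ∃ τ : PadicAlgCl 2 ≃ₐ[ℚ_[2]] PadicAlgCl 2, τ (ι u) ≠ ι u := by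
    by_contra hcon
    push Not at hcon
    have h1 : ι u ∈ (⊥ : IntermediateField ℚ_[2] (PadicAlgCl 2)) := by
      rw [InfiniteGalois.mem_bot_iff_fixed]
      exact hcon
    obtain ⟨q, hq⟩ := IntermediateField.mem_bot.1 h1
    have h2 : (algebraMap ℚ_[2] (PadicAlgCl 2)) (q ^ 2) = algebraMap ℚ_[2] (PadicAlgCl 2) (-(m : ℚ_[2])) := by
      rw [map_pow, hq, ← map_pow, hu, map_neg, map_neg, map_natCast, map_natCast]
    have h3 := (algebraMap ℚ_[2] (PadicAlgCl 2)).injective h2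
    rcases hm with rfl | rfl
    · exact no_sq_one q (by simpa using h3)
    · exact no_sq_two q (by simpa using h3)
  obtain ⟨τ, hτ⟩ := key
  let _ : Algebra QBar (PadicAlgCl 2) := ι.toRingHom.toAlgebra
  have : IsScalarTower ℚ QBar (PadicAlgCl 2) :=
    IsScalarTower.of_algebraMap_eq fun x => (ι.commutes x).symm
  let τ' : PadicAlgCl 2 ≃ₐ[ℚ] PadicAlgCl 2 := τ.restrictScalars ℚ
  let σ := τ'.restrictNormal QBar
  have hσ : ∀ x, τ (ι x) = ι (σ x) := fun x => (AlgEquiv.restrictNormal_commutes τ' QBar x).symm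
  refine ⟨σ, ⟨τ, hσ⟩, fun h => hτ ?_⟩
  rw [hσ, mem_GF.1 h]

end Pool.Agent.H55.OR
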