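import Pool.Agent.H55.OR.Dcp

/-!
# The parity over the quadratic fields `ℚ(√(md))`
-/

set_option autoImplicit false
set_option linter.unusedSectionVars false

namespace Pool.Agent.H55.OR

open Matrix IsLocalRing Topology
open Pool.Agent.H55.PR
open Pool.Agent.H55.PR.PE

variable {A : Type} [CommRing A] [IsDomain A] [IsLocalRing A] [TopologicalSpace A]
  [IsTopologicalRing A] [Algebra ℤ_[2] A] [Module.Finite ℤ_[2] A] [Module.Free ℤ_[2] A]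
  {E : Type} [Field E] [Algebra A E] [IsFractionRing A E]
  {n : ℕ} {ρ : GQ →* GL (Fin n) A}

/-- **Parity over `ℚ(√(md))`.** -/
theorem odd {m d : ℕ} (hm : m = 1 ∨ m = 2) (hd : InClass d) {s u : QBar}
    (hs : s ^ 2 = -(d : QBar)) (hu : u ^ 2 = -(m : QBar)) (hA : IsAdic (maximalIdeal A))
    (hρ : Admissible ρ) {Ω : Matrix (Fin n) (Fin n) E} (hΩ : Symplectic E ρ Ω) {ι : Emb 2} {k : ℕ}
    {l : Fin k → Dec ι → Fin n → E} (hl : Lagrangian E ρ Ω ι l) {τA : A ≃+* A} {τ : E ≃+* E}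
    {T : Matrix (Fin n) (Fin n) E} (hT : SelfTwist E ρ u τA τ T) :
    ∃ r : ℕ, r ≤ k ∧ Even (k - r) ∧ ∃ z : Fin r → GF (s * u) → Fin n → E,
      (∀ i, InSelmerRam E ρ (s * u) τ T ι l (z i)) ∧
      Independent E (fun σ : GF (s * u) => mat E ρ σ) z ∧
      ∀ y, InSelmerRam E ρ (s * u) τ T ι l y →
        InSpan E (fun σ : GF (s * u) => mat E ρ σ) z y := by
  have hF : Pool.Agent.Z384.Fld d := hd
  have hsq := sq_of hF.ne_zero hs
  have hm0 : m ≠ 0 := by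
    rcases hm with rfl | rfl <;> norm_num
  have husq := sq_of hm0 hu
  have ht : Sq (s * u) := hsq.mul husq
  have hDs := dec_le hs hF.mod ι
  obtain ⟨c, hcD, hcu⟩ := exists_dec_move hm hu ι
  have hc : c ∉ GF (s * u) := by
    intro h
    rw [mem_GF_sgn, hsq.sgn_st husq, mem_GF_sgn.1 (hDs hcD), one_mul, ← mem_GF_sgn] at h
    exact hcu h
  have hst : ∀ σ, sgn (s * u) σ = sgn s σ * sgn u σ := hsq.sgn_st husq
  have h := semi_of hA hT
  have h2 := two_ne A E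
  have htD : ∀ (δ : Dec ι) (v : Fin n → E), sl τ T (mat E ρ δ *ᵥ v) = tw E ρ (s * u) δ *ᵥ sl τ T v := by
    intro δ v
    rw [h.twist]
    unfold tw
    rw [hst, mem_GF_sgn.1 (hDs δ.2), one_mul, smul_mulVec]
  have hLc : ∀ y ∈ Lsp E ρ (Dec ι) l, ∀ δ δ' : Dec ι, y (δ * δ') = y δ + mat E ρ δ *ᵥ y δ' := by
    rintro y ⟨a, v, hy⟩ δ δ'
    have hy' : ∀ δ : Dec ι, y δ = ∑ i, a i • l i δ + (mat E ρ δ *ᵥ v - v) := hy
    rw [hy', hy', hy', mulVec_add, mulVec_sub, mulVec_mulVec, Subgroup.coe_mul, mat_mul]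
    have e1 : ∑ i, a i • l i (δ * δ') = ∑ i, a i • l i δ + mat E ρ δ *ᵥ ∑ i, a i • l i δ' := by
      rw [mulVec_sum, ← Finset.sum_add_distrib]
      refine Finset.sum_congr rfl fun i _ => ?_
      rw [(hl.cocycle i).mul, smul_add, mulVec_smul]
    rw [e1]
    abel
  obtain ⟨eq⟩ := decompR (ρ := ρ) h2 hρ.cont ht hc hcD (L := Lsp E ρ (Dec ι) l)
    (L' := img h (Lsp E ρ (Dec ι) l)) (fun v => Lsp_cob _ _ v) (fun v => by
      refine ⟨fun δ => mat E ρ δ *ᵥ (fun i => τ.symm ((T⁻¹ *ᵥ v) i)) -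
        (fun i => τ.symm ((T⁻¹ *ᵥ v) i)), Lsp_cob _ _ _, fun δ => ?_⟩
      rw [h.sub, htD, h.right]) hLc (by
      rintro w ⟨y, hy, e⟩ δ δ'
      rw [e, e, e, hLc y hy, h.add, htD])
  obtain ⟨f1, f2, h3, h4⟩ := parityQ hd hs hA hρ hΩ hl hsq
  obtain ⟨f3, h5⟩ := dim_semi h hsq ht hst f2
  have hfin : Module.Finite E (Q (selR ρ (s * u) (Dec ι) (Lsp E ρ (Dec ι) l)
      (img h (Lsp E ρ (Dec ι) l))) (Cob (Mh E ρ Sq.one) (GF (s * u)))) := Module.Finite.equiv eq.symm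
  have hfr := eq.finrank_eq
  rw [Module.finrank_prod] at hfr
  have h6 : Module.finrank E (Q (selR ρ (s * u) (Dec ι) (Lsp E ρ (Dec ι) l)
      (img h (Lsp E ρ (Dec ι) l))) (Cob (Mh E ρ Sq.one) (GF (s * u)))) =
      dimG ρ Sq.one (Dec ι) (Lsp E ρ (Dec ι) l) + dimG ρ hsq (Dec ι) (Lsp E ρ (Dec ι) l) := by
    rw [← h5]
    exact hfr
  obtain ⟨z, hz1, hz2, hz3⟩ := exists_family
    (S := selR ρ (s * u) (Dec ι) (Lsp E ρ (Dec ι) l) (img h (Lsp E ρ (Dec ι) l)))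
    (B := Cob (Mh E ρ Sq.one) (GF (s * u)))
  refine ⟨_, ?_, ?_, z, fun i => ?_, fun a ⟨v, hv⟩ => ?_, fun y hy => ?_⟩
  · rw [h6]
    exact h3
  · rw [h6]
    exact h4
  · obtain ⟨g1, g2, g3, y, hy, w, ⟨y', hy', e⟩, g4⟩ := hz1 i
    exact ⟨g1, g2, g3, y, y', hy, hy', fun δ h hh => by rw [g4 δ h hh, e]⟩
  · refine hz2 a ⟨v, fun σ => ?_⟩
    rw [Finset.sum_apply, Mh_apply, tw_one]
    exact hv σ
  · obtain ⟨y1, y2, e1, e2, e3⟩ := hy.two
    obtain ⟨a, v, hv⟩ := hz3 y ⟨hy.mul, hy.cont, hy.unramified, y1, e1, fun δ => sl τ T (y2 δ),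
      ⟨y2, e2, fun δ => rfl⟩, e3⟩
    refine ⟨a, v, fun σ => ?_⟩
    have h7 := hv σ
    rw [Pi.sub_apply, Finset.sum_apply, Mh_apply, tw_one] at h7
    rw [← h7]
    simp only [Pi.smul_apply]
    abel

end Pool.Agent.H55.OR
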