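import Pool.Agent.H55.OR.DefsR
import Pool.Agent.H55.OR.Loc

/-!
# Semilinear self-twists
-/

set_option autoImplicit false
set_option linter.unusedSectionVars false

namespace Pool.Agent.H55.OR

open Matrix IsLocalRing Topology
open Pool.Agent.H55.PR
open Pool.Agent.H55.PR.PE

section cont

variable {A : Type} [CommRing A] [IsLocalRing A] [TopologicalSpace A] [IsTopologicalRing A]

/-- the automorphisms of a local ring with its adic topology are continuous -/
lemma adic_cont (hA : IsAdic (maximalIdeal A)) (τ : A ≃+* A) : Continuous τ := by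
  refine continuous_of_continuousAt_zero τ ?_
  rw [ContinuousAt, map_zero]
  have h := hA.hasBasis_nhds_zero
  rw [h.tendsto_iff h]
  intro k _
  refine ⟨k, trivial, fun x hx => ?_⟩
  have h1 : (maximalIdeal A).map (τ : A →+* A) ≤ maximalIdeal A := by
    rw [Ideal.map_le_iff_le_comap]
    intro y hy
    rw [Ideal.mem_comap, mem_maximalIdeal, mem_nonunits_iff]
    rw [mem_maximalIdeal, mem_nonunits_iff] at hy
    intro h2
    apply hy
    have h3 := h2.map (τ.symm : A →+* A)
    simpa using h3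
  have h2 : τ x ∈ ((maximalIdeal A) ^ k).map (τ : A →+* A) := Ideal.mem_map_of_mem _ hx
  rw [Ideal.map_pow] at h2
  exact Ideal.pow_right_mono h1 k h2

end cont

/-- the data of a semilinear self-twist -/
structure Semi (A : Type) [CommRing A] [TopologicalSpace A] {E : Type} [Field E] [Algebra A E]
    {n : ℕ} (ρ : GQ →* GL (Fin n) A) (u : QBar) (τ : E ≃+* E) (Φ Ψ : (Fin n → E) → (Fin n → E)) :
    Prop where
  add : ∀ v w, Φ (v + w) = Φ v + Φ w
  smul : ∀ (x : E) v, Φ (x • v) = τ x • Φ v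
  left : ∀ v, Ψ (Φ v) = v
  right : ∀ v, Φ (Ψ v) = v
  twist : ∀ σ v, Φ (mat E ρ σ *ᵥ v) = (sgn u σ : E) • (mat E ρ σ *ᵥ Φ v)
  cont : ∀ (G : Type) [TopologicalSpace G] (f : G → Fin n → E), Cont (A := A) E f →
    Cont (A := A) E (fun g => Φ (f g))
  cont' : ∀ (G : Type) [TopologicalSpace G] (f : G → Fin n → E), Cont (A := A) E f →
    Cont (A := A) E (fun g => Ψ (f g))

variable {A : Type} [CommRing A] [IsDomain A] [IsLocalRing A] [TopologicalSpace A]
  [IsTopologicalRing A] {E : Type} [Field E] [Algebra A E] [IsFractionRing A E]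
  {n : ℕ} {ρ : GQ →* GL (Fin n) A}

lemma cont_map {τA : A ≃+* A} {τ : E ≃+* E} (hτ : Continuous τA)
    (hext : ∀ a, τ (algebraMap A E a) = algebraMap A E (τA a)) (T : Matrix (Fin n) (Fin n) E)
    {G : Type} [TopologicalSpace G] {f : G → Fin n → E} (hf : Cont (A := A) E f) :
    Cont (A := A) E (fun g => T *ᵥ fun i => τ (f g i)) := by
  obtain ⟨a, b, ha, hb, hab⟩ := hf
  obtain ⟨q, hq, T', hT'⟩ := Pool.Agent.H76.PS.scal (A := A) (fun i : Fin n × Fin n => T i.1 i.2)
  refine ⟨q * τA a, fun g i => ∑ j, T' (i, j) * τA (b g j), ?_, ?_, fun g i => ?_⟩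
  · rw [map_mul, ← hext]
    refine mul_ne_zero hq ?_
    rw [map_ne_zero_iff _ τ.injective]
    exact ha
  · refine continuous_pi fun i => continuous_finsetSum _ fun j _ => continuous_const.mul ?_
    exact hτ.comp ((continuous_apply j).comp hb)
  · show _ * (∑ j, T i j * τ (f g j)) = _
    rw [map_sum, Finset.mul_sum]
    refine Finset.sum_congr rfl fun j _ => ?_
    have e1 := hT' (i, j)
    have e2 : algebraMap A E (τA (b g j)) = algebraMap A E (τA a) * τ (f g j) := by
      rw [← hext, ← hext, ← hab, map_mul]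
    rw [map_mul, map_mul, e1, e2]
    ring

/-- the self-twist as semilinear data -/
theorem semi_of (hA : IsAdic (maximalIdeal A)) {u : QBar} {τA : A ≃+* A} {τ : E ≃+* E}
    {T : Matrix (Fin n) (Fin n) E} (h : SelfTwist E ρ u τA τ T) :
    Semi A ρ u τ (sl τ T) (fun v i => τ.symm ((T⁻¹ *ᵥ v) i)) := by
  have hdet : IsUnit T.det := (Matrix.isUnit_iff_isUnit_det T).1 h.isUnit
  have hext' : ∀ a, τ.symm (algebraMap A E a) = algebraMap A E (τA.symm a) := by
    intro a
    rw [RingEquiv.symm_apply_eq, h.ext, RingEquiv.apply_symm_apply]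
  refine ⟨fun v w => ?_, fun x v => ?_, fun v => ?_, fun v => ?_, h.twist, fun G _ f hf =>
    cont_map (adic_cont hA τA) h.ext T hf, fun G _ f hf => ?_⟩
  · unfold sl
    rw [← mulVec_add]
    congr 1
    funext i
    simp
  · unfold sl
    rw [← mulVec_smul]
    congr 1
    funext i
    simp
  · unfold sl
    funext i
    show τ.symm ((T⁻¹ *ᵥ (T *ᵥ fun i => τ (v i))) i) = v i
    rw [mulVec_mulVec, Matrix.nonsing_inv_mul _ hdet, one_mulVec, RingEquiv.symm_apply_apply]
  · unfold sl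
    have : (fun i => τ (τ.symm ((T⁻¹ *ᵥ v) i))) = T⁻¹ *ᵥ v := by
      funext i
      rw [RingEquiv.apply_symm_apply]
    rw [this, mulVec_mulVec, Matrix.mul_nonsing_inv _ hdet, one_mulVec]
  · have h1 : Cont (A := A) E (fun g => T⁻¹ *ᵥ fun i => (RingEquiv.refl E) (f g i)) :=
      cont_map (τA := RingEquiv.refl A) continuous_id (fun a => rfl) T⁻¹ hf
    have h2 := cont_map (adic_cont hA τA.symm) hext' 1 h1
    simp only [one_mulVec] at h2
    exact h2

namespace Semi

variable {u : QBar} {τ : E ≃+* E} {Φ Ψ : (Fin n → E) → (Fin n → E)}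

lemma zero (h : Semi A ρ u τ Φ Ψ) : Φ 0 = 0 := by
  have := h.smul 0 0
  simpa using this

lemma sub (h : Semi A ρ u τ Φ Ψ) (v w : Fin n → E) : Φ (v - w) = Φ v - Φ w := by
  have h1 : v = (v - w) + w := by abel
  have h2 := h.add (v - w) w
  rw [← h1] at h2
  rw [h2]
  abel

lemma sum (h : Semi A ρ u τ Φ Ψ) {I : Type} (t : Finset I) (f : I → Fin n → E) :
    Φ (∑ i ∈ t, f i) = ∑ i ∈ t, Φ (f i) := by
  classical
  induction t using Finset.induction_on with
  | empty => simpa using h.zero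
  | insert a t ha ih => rw [Finset.sum_insert ha, Finset.sum_insert ha, h.add, ih]

lemma inj (h : Semi A ρ u τ Φ Ψ) {v w : Fin n → E} (e : Φ v = Φ w) : v = w := by
  rw [← h.left v, e, h.left]

/-- the inverse -/
lemma symm (h : Semi A ρ u τ Φ Ψ) : Semi A ρ u τ.symm Ψ Φ where
  add v w := by
    apply h.inj
    rw [h.add, h.right, h.right, h.right]
  smul x v := by
    apply h.inj
    rw [h.smul, h.right, h.right, RingEquiv.apply_symm_apply]
  left := h.right
  right := h.left
  twist σ v := by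
    apply h.inj
    rw [h.right, h.smul, h.twist, h.right, map_intCast, smul_smul, ← Int.cast_mul, Sq.sgn_sq,
      Int.cast_one, one_smul]
  cont := h.cont'
  cont' := h.cont

end Semi

/-- the image of a space of functions -/
def img {D : Subgroup GQ} {u : QBar} {τ : E ≃+* E} {Φ Ψ : (Fin n → E) → (Fin n → E)}
    (h : Semi A ρ u τ Φ Ψ) (L : Submodule E (D → Fin n → E)) : Submodule E (D → Fin n → E) where
  carrier := {w | ∃ y ∈ L, ∀ δ, w δ = Φ (y δ)}
  add_mem' := by
    rintro w w' ⟨y, hy, e⟩ ⟨y', hy', e'⟩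
    exact ⟨y + y', L.add_mem hy hy', fun δ => by rw [Pi.add_apply, Pi.add_apply, h.add, e, e']⟩
  zero_mem' := ⟨0, L.zero_mem, fun δ => h.zero.symm⟩
  smul_mem' := by
    rintro x w ⟨y, hy, e⟩
    refine ⟨τ.symm x • y, L.smul_mem _ hy, fun δ => ?_⟩
    rw [Pi.smul_apply, Pi.smul_apply, h.smul, RingEquiv.apply_symm_apply, e]

section transport

variable {u s t : QBar} {τ : E ≃+* E} {Φ Ψ : (Fin n → E) → (Fin n → E)} {D : Subgroup GQ}
  {L : Submodule E (D → Fin n → E)}

lemma tw_semi (h : Semi A ρ u τ Φ Ψ) (hst : ∀ σ, sgn t σ = sgn s σ * sgn u σ) (σ : GQ)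
    (v : Fin n → E) : Φ (tw E ρ s σ *ᵥ v) = tw E ρ t σ *ᵥ Φ v := by
  unfold tw
  rw [smul_mulVec, smul_mulVec, h.smul, h.twist, map_intCast, hst, smul_smul]
  push_cast
  rfl

/-- the image of a Selmer cocycle -/
lemma trans_mem (h : Semi A ρ u τ Φ Ψ) (hst : ∀ σ, sgn t σ = sgn s σ * sgn u σ)
    {L' : Submodule E (D → Fin n → E)} (hL : ∀ y ∈ L, (fun δ => Φ (y δ)) ∈ L')
    {z : GQ → Fin n → E} (hz : z ∈ selG ρ s D L) : (fun σ => Φ (z σ)) ∈ selG ρ t D L' := by
  obtain ⟨h1, h2, h3, h4⟩ := hz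
  refine ⟨fun σ σ' => ?_, h.cont _ _ h2, fun p _ ι' hp => ?_, hL _ h4⟩
  · show Φ (z (σ * σ')) = Φ (z σ) + tw E ρ t σ *ᵥ Φ (z σ')
    rw [h1, h.add, tw_semi h hst]
  · obtain ⟨v, hv⟩ := h3 p ι' hp
    refine ⟨Φ v, fun σ hσ => ?_⟩
    show Φ (z σ) = _
    rw [hv σ hσ, h.sub, tw_semi h hst]

/-- the dimensions of the two Selmer groups are equal -/
theorem dim_semi (h : Semi A ρ u τ Φ Ψ) (hs : Sq s) (ht : Sq t)
    (hst : ∀ σ, sgn t σ = sgn s σ * sgn u σ)
    (hf : Module.Finite E (Q (selG ρ s D L) (CobG (Mh E ρ hs)))) :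
    Module.Finite E (Q (selG ρ t D (img h L)) (CobG (Mh E ρ ht))) ∧
      dimG ρ ht D (img h L) = dimG ρ hs D L := by
  have hts : ∀ σ, sgn s σ = sgn t σ * sgn u σ := by
    intro σ
    rw [hst, mul_assoc, Sq.sgn_sq, mul_one]
  obtain ⟨z, hz1, hz2, hz3⟩ := exists_family (S := selG ρ s D L) (B := CobG (Mh E ρ hs))
  have h5 := finrank_of (S := selG ρ t D (img h L)) (B := CobG (Mh E ρ ht))
    (fun i σ => Φ (z i σ)) (fun i => trans_mem h hst
      (fun y hy => (⟨y, hy, fun δ => rfl⟩ : ∃ y' ∈ L, ∀ δ, Φ (y δ) = Φ (y' δ))) (hz1 i))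
    (fun a ha => by
      obtain ⟨v, hv⟩ := ha
      have h6 := hz2 (fun i => τ.symm (a i)) ⟨Ψ v, fun σ => ?_⟩
      · funext i
        have h7 := congrFun h6 i
        rw [Pi.zero_apply] at h7 ⊢
        have h8 := congrArg τ h7
        rwa [RingEquiv.apply_symm_apply, map_zero] at h8
      · apply h.inj
        have h7 := hv σ
        rw [Finset.sum_apply] at h7 ⊢
        rw [h.sum, h.sub, Mh_apply, tw_semi h hst, h.right, ← Mh_apply E ρ ht, ← h7]
        refine Finset.sum_congr rfl fun i _ => ?_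
        rw [Pi.smul_apply, Pi.smul_apply, h.smul, RingEquiv.apply_symm_apply])
    (fun y hy => by
      have h6 := trans_mem h.symm hts (L := img h L) (L' := L) (fun w hw => by
        obtain ⟨y', hy', e⟩ := hw
        have : (fun δ => Ψ (w δ)) = y' := by
          funext δ
          rw [e, h.left]
        rw [this]
        exact hy') hy
      obtain ⟨a, v, h7⟩ := hz3 _ h6
      refine ⟨fun i => τ (a i), Φ v, fun σ => ?_⟩
      have h8 := congrArg Φ (h7 σ)
      rw [Pi.sub_apply, Finset.sum_apply, h.sub, h.sum, h.sub, Mh_apply, tw_semi h hst,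
        h.right] at h8
      rw [Mh_apply, ← h8, Pi.sub_apply, Finset.sum_apply]
      congr 1
      refine Finset.sum_congr rfl fun i _ => ?_
      rw [Pi.smul_apply, Pi.smul_apply, h.smul])
  exact ⟨h5.1, h5.2⟩

end transport

end Pool.Agent.H55.OR
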